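import Pool.Agent.H66.SYM.Basic

/-!
# Board t5, module AN2: limits of the powers of multiplication operators
-/

namespace Pool.H66.SYM

open Filter Topology

noncomputable section

section core

variable {H : Type} [NormedAddCommGroup H] [InnerProductSpace ℂ H] [CompleteSpace H]

omit [CompleteSpace H] in
theorem AN2_ex (p : Ultrafilter ℕ) (U : ℕ → H →L[ℂ] H) (hU : ∀ n x, ‖U n x‖ ≤ ‖x‖) (x y : H) :
    ∃ l : ℂ, ‖l‖ ≤ ‖x‖ * ‖y‖ ∧ Tendsto (fun n => inner ℂ x (U n y)) p (𝓝 l) := by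
  have hc : IsCompact (Metric.closedBall (0:ℂ) (‖x‖ * ‖y‖)) := isCompact_closedBall _ _
  have hm : ∀ n, (inner ℂ x (U n y) : ℂ) ∈ Metric.closedBall (0:ℂ) (‖x‖ * ‖y‖) := by
    intro n
    rw [mem_closedBall_zero_iff]
    exact (norm_inner_le_norm x _).trans (mul_le_mul_of_nonneg_left (hU n y) (norm_nonneg x))
  have hle : ((p.map fun n => (inner ℂ x (U n y) : ℂ) : Ultrafilter ℂ) : Filter ℂ) ≤
      𝓟 (Metric.closedBall (0:ℂ) (‖x‖ * ‖y‖)) := by
    rw [le_principal_iff, Ultrafilter.mem_coe, Ultrafilter.mem_map, ← Ultrafilter.mem_coe]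
    exact Filter.univ_mem' hm
  obtain ⟨l, hl, hl'⟩ := hc.ultrafilter_le_nhds _ hle
  exact ⟨l, mem_closedBall_zero_iff.1 hl, hl'⟩

theorem AN2_lim (p : Ultrafilter ℕ) (U : ℕ → H →L[ℂ] H) (hU : ∀ n x, ‖U n x‖ ≤ ‖x‖) :
    ∃ E : H →L[ℂ] H, ∀ x y, Tendsto (fun n => inner ℂ x (U n y)) p (𝓝 (inner ℂ x (E y))) := by
  choose L hL hL' using AN2_ex p U hU
  let B0 : H →ₗ⋆[ℂ] H →ₗ[ℂ] ℂ := LinearMap.mk₂'ₛₗ (starRingEnd ℂ) (RingHom.id ℂ) L
    (fun x x' y => by
      refine tendsto_nhds_unique (hL' (x + x') y) ?_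
      simpa only [inner_add_left] using (hL' x y).add (hL' x' y))
    (fun c x y => by
      refine tendsto_nhds_unique (hL' (c • x) y) ?_
      simpa only [inner_smul_left, smul_eq_mul] using (hL' x y).const_mul (starRingEnd ℂ c))
    (fun x y y' => by
      refine tendsto_nhds_unique (hL' x (y + y')) ?_
      simpa only [map_add, inner_add_right] using (hL' x y).add (hL' x y'))
    (fun c x y => by
      refine tendsto_nhds_unique (hL' x (c • y)) ?_
      simpa only [map_smul, inner_smul_right, smul_eq_mul, RingHom.id_apply] using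
        (hL' x y).const_mul c)
  let B : H →L⋆[ℂ] H →L[ℂ] ℂ := B0.mkContinuous₂ 1 (fun x y => by
    rw [one_mul]
    exact hL x y)
  refine ⟨ContinuousLinearMap.adjoint (InnerProductSpace.continuousLinearMapOfBilin B), ?_⟩
  intro x y
  rw [ContinuousLinearMap.adjoint_inner_right, InnerProductSpace.continuousLinearMapOfBilin_apply]
  exact hL' x y

end core

/-- limits along an idempotent ultrafilter -/
theorem AN2_idem {p : Ultrafilter ℕ} (hp : Idem p) {a : ℕ → ℂ} {b : ℕ → ℂ} {l l' : ℂ}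
    (h1 : ∀ n, Tendsto (fun k => a (n + k)) p (𝓝 (b n))) (h2 : Tendsto b p (𝓝 l'))
    (h3 : Tendsto a p (𝓝 l)) : l' = l := by
  refine tendsto_nhds_unique h2 ?_
  rw [Metric.tendsto_nhds]
  intro ε hε
  have h4 := (Metric.tendsto_nhds.1 h3) (ε / 2) (by positivity)
  have h5 : {m | dist (a m) l < ε / 2} ∈ p := h4
  rw [hp.2] at h5
  refine Filter.mem_of_superset (Ultrafilter.mem_coe.2 h5) fun n hn => ?_
  have h6 : ∀ᶠ k in (p : Filter ℕ), dist (a (n + k)) l ≤ ε / 2 := by
    filter_upwards [Ultrafilter.mem_coe.2 hn] with k hk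
    exact le_of_lt hk
  have h7 : dist (b n) l ≤ ε / 2 :=
    le_of_tendsto ((h1 n).dist tendsto_const_nhds) h6
  show dist (b n) l < ε
  linarith

section normal

variable {H : Type} [NormedAddCommGroup H] [InnerProductSpace ℂ H] [CompleteSpace H]

omit [CompleteSpace H] in
/-- a normal idempotent is self-adjoint -/
theorem AN2_normal (E F : H →L[ℂ] H) (hF : ∀ x y, inner ℂ (E x) y = inner ℂ x (F y))
    (hc : E * F = F * E) (hi : E * E = E) : E = F := by
  have hF' : ∀ x y, inner ℂ (F x) y = inner ℂ x (E y) := by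
    intro x y
    rw [← inner_conj_symm, ← hF, inner_conj_symm]
  have hn : ∀ x, ‖E x‖ = ‖F x‖ := by
    intro x
    have h1 : (inner ℂ (E x) (E x) : ℂ) = inner ℂ (F x) (F x) := by
      rw [hF, hF']
      have := congrArg (fun G : H →L[ℂ] H => G x) hc
      simp only [mul_apply_eq_comp] at this
      rw [this]
    rw [inner_self_eq_norm_sq_to_K, inner_self_eq_norm_sq_to_K] at h1
    have h2 : ‖E x‖ ^ 2 = ‖F x‖ ^ 2 := by exact_mod_cast h1
    exact (sq_eq_sq₀ (norm_nonneg _) (norm_nonneg _)).1 h2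
  have h3 : ∀ x, F x = F (E x) := by
    intro x
    have h4 : E (x - E x) = 0 := by
      have := congrArg (fun G : H →L[ℂ] H => G x) hi
      simp only [mul_apply_eq_comp] at this
      rw [map_sub, this, sub_self]
    have h5 : F (x - E x) = 0 := by
      rw [← norm_eq_zero, ← hn, h4, norm_zero]
    rw [map_sub, sub_eq_zero] at h5
    exact h5
  ext1 x
  refine ext_inner_right ℂ fun y => ?_
  rw [hF, h3 y, ← hF, ← hF', ← h3]

end normal

theorem AN2_cj {V : Type} {u : V → ℂ} (hu : Uni u) : Uni (cj u) := fun v => by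
  simp [cj, hu v]

theorem AN2_bd {V : Type} {u : V → ℂ} (hu : Uni u) (n : ℕ) : Bd (fun v => u v ^ n) :=
  ⟨1, fun v => by rw [norm_pow, hu v, one_pow]⟩

theorem AN2_bdcj {V : Type} {f : V → ℂ} (hf : Bd f) : Bd (cj f) := by
  obtain ⟨C, hC⟩ := hf
  exact ⟨C, fun v => by simpa [cj] using hC v⟩

theorem AN2_cjcj {V : Type} (f : V → ℂ) : cj (cj f) = f := by
  funext v
  simp [cj]

theorem s_AN2 : S_AN2 := by
  classical
  intro V μ R p hp
  -- adjoints on the other side
  have hadj : ∀ f, Bd f → ∀ x y : R.H, inner ℂ x (R.T f y) = inner ℂ (R.T (cj f) x) y := by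
    intro f hf x y
    rw [R.T_adj (cj f) (AN2_bdcj hf), AN2_cjcj]
  have hiso : ∀ u, Uni u → ∀ (n : ℕ) (x : R.H), ‖R.T (fun v => u v ^ n) x‖ ≤ ‖x‖ := by
    intro u hu n x
    have hb := AN2_bd hu n
    have h1 : cj (fun v => u v ^ n) * (fun v => u v ^ n) = 1 := by
      funext v
      simp only [cj, Pi.mul_apply, Pi.one_apply]
      rw [mul_comm, Complex.mul_conj, Complex.normSq_eq_norm_sq, norm_pow, hu v]
      simp
    have h2 : (inner ℂ (R.T (fun v => u v ^ n) x) (R.T (fun v => u v ^ n) x) : ℂ) =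
        inner ℂ x x := by
      rw [R.T_adj _ hb, ← mul_apply_eq_comp, ← R.T_mul _ _ (AN2_bdcj hb) hb, h1,
        R.T_one]
      rfl
    rw [inner_self_eq_norm_sq_to_K, inner_self_eq_norm_sq_to_K] at h2
    have h3 : ‖R.T (fun v => u v ^ n) x‖ ^ 2 = ‖x‖ ^ 2 := by exact_mod_cast h2
    exact le_of_eq ((sq_eq_sq₀ (norm_nonneg _) (norm_nonneg _)).1 h3)
  have hex : ∀ u, ∃ E : R.H →L[ℂ] R.H, Uni u → ∀ x y : R.H,
      Tendsto (fun n : ℕ => inner ℂ x (R.T (fun v => u v ^ n) y)) p (𝓝 (inner ℂ x (E y))) := by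
    intro u
    by_cases hu : Uni u
    · obtain ⟨E, hE⟩ := AN2_lim p (fun n => R.T (fun v => u v ^ n)) (hiso u hu)
      exact ⟨E, fun _ => hE⟩
    · exact ⟨0, fun h => absurd h hu⟩
  choose E hE using hex
  have hcomm : ∀ u, Uni u → ∀ f, Bd f → R.T f * E u = E u * R.T f := by
    intro u hu f hf
    ext1 y
    refine ext_inner_left ℂ fun x => ?_
    simp only [mul_apply_eq_comp]
    rw [hadj f hf]
    refine tendsto_nhds_unique (hE u hu (R.T (cj f) x) y) ?_
    refine (hE u hu x (R.T f y)).congr fun n => ?_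
    rw [← hadj f hf, ← mul_apply_eq_comp, ← mul_apply_eq_comp,
      ← R.T_mul _ _ (AN2_bd hu n) hf, ← R.T_mul _ _ hf (AN2_bd hu n), mul_comm]
  have hcomm' : ∀ u w, Uni u → Uni w → E u * E w = E w * E u := by
    intro u w hu hw
    ext1 y
    refine ext_inner_left ℂ fun x => ?_
    simp only [mul_apply_eq_comp]
    refine tendsto_nhds_unique (hE u hu x (E w y)) ?_
    have h1 : inner ℂ x (E w (E u y)) = inner ℂ (ContinuousLinearMap.adjoint (E w) x) (E u y) := by
      rw [ContinuousLinearMap.adjoint_inner_left]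
    rw [h1]
    refine (hE u hu (ContinuousLinearMap.adjoint (E w) x) y).congr fun n => ?_
    rw [ContinuousLinearMap.adjoint_inner_left, ← mul_apply_eq_comp,
      ← mul_apply_eq_comp, hcomm w hw _ (AN2_bd hu n)]
  have hidem : ∀ u, Uni u → E u * E u = E u := by
    intro u hu
    ext1 y
    refine ext_inner_left ℂ fun x => ?_
    simp only [mul_apply_eq_comp]
    refine AN2_idem hp (a := fun n => inner ℂ x (R.T (fun v => u v ^ n) y))
      (b := fun n => inner ℂ x (R.T (fun v => u v ^ n) (E u y))) ?_ (hE u hu x (E u y))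
      (hE u hu x y)
    intro n
    rw [hadj _ (AN2_bd hu n)]
    refine (hE u hu _ y).congr fun k => ?_
    rw [← hadj _ (AN2_bd hu n), ← mul_apply_eq_comp,
      ← R.T_mul _ _ (AN2_bd hu n) (AN2_bd hu k)]
    congr 3
    funext v
    simp only [Pi.mul_apply, pow_add]
  have hadjE : ∀ u, Uni u → ∀ x y : R.H, inner ℂ (E u x) y = inner ℂ x (E (cj u) y) := by
    intro u hu x y
    refine tendsto_nhds_unique ?_ (hE (cj u) (AN2_cj hu) x y)
    have h1 := (Complex.continuous_conj.tendsto _).comp (hE u hu y x)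
    rw [inner_conj_symm] at h1
    refine h1.congr fun n => ?_
    simp only [Function.comp]
    rw [inner_conj_symm, R.T_adj _ (AN2_bd hu n)]
    congr 3
    funext v
    simp [cj]
  have hself : ∀ u, Uni u → E u = E (cj u) := by
    intro u hu
    exact AN2_normal (E u) (E (cj u)) (hadjE u hu) (hcomm' u (cj u) hu (AN2_cj hu)) (hidem u hu)
  refine ⟨⟨E, hE, hcomm, hcomm', hidem, ?_, ?_⟩⟩
  · intro u hu x y
    rw [hadjE u hu, ← hself u hu]
  · have hu : Uni (1 : V → ℂ) := fun v => by simp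
    ext1 y
    refine ext_inner_left ℂ fun x => ?_
    refine tendsto_nhds_unique (hE 1 hu x y) ?_
    refine tendsto_const_nhds.congr fun n => ?_
    have h1 : (fun v : V => (1 : V → ℂ) v ^ n) = 1 := by
      funext v
      simp
    rw [h1, R.T_one]

end

end Pool.H66.SYM
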